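import Pool.Agent.X180.OK.Pair
import Pool.Agent.X325.OB.SmallTower

/-!
# Abundance for effective divisors on varieties with trivial canonical class over subvarieties of
projective space

Let `X` be a normal projective variety with `K_X ~ 0` (for instance a projective manifold) and `L` an
effective divisor on `X`. A prime divisor of `X` is *relevant* if it is not in the support of `L`, and
not in the base locus of all `m (L + η A)`, for small `η ≥ 0` (`A` a given effective divisor; so the
divisors in the diminished base locus of `L` may be neglected; if `L` is nef and `A` is ample, all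
prime divisors of `X ∖ Supp L` are relevant). Let

  `X ⇢ W_l ⇢ ... ⇢ W_1 ⇢ W_0`, `l ≥ 0`,

be dominant rational maps. Suppose:

* (the base) `W_0` is any subvariety of `P^v`, of dimension `D 0`, and `ℓ i = 0`, `i < q`, are hyperplanes
  in general position which do not contain `W_0`, such that the points `ℓ i` impose independent
  conditions on the forms of degree `d`, with weights `wt i ≥ 0` whose sum is at least `(D 0 + 1) γ`,
  `γ = (v - D 0 + d).choose (v - D 0)`; if `μ i` are the multiplicities of the hyperplanes `ℓ i = 0` at
  a relevant prime divisor `P` of `X` (for the divisors without fixed component which the map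
  defines), not all zero, then `min (#{i | μ i ≠ 0}) γ ≤ ∑ i, (1 - wt i) μ i`. In the borderline case,
  when the sum of the weights is equal to `(D 0 + 1) γ`, the inequality is strict if the multiplicity
  `μ k0` of one distinguished hyperplane is positive. (There is no condition at the components of `L`:
  for instance the preimages of some of the hyperplanes may be in `Supp L`, then their weights may be
  arbitrarily large. If `W_0 = P^{D 0}` then `γ = 1`.)
* (the steps of the tower) for each `i < l` the fibres of `W_{i+1}` over `W_i`, of dimension `e_i`,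
  *with the multiplicities of the fibres of `X ∖ Supp L` over `W_{i+1}`*, correspond to the product of
  one orbifold `V_i` (which does not depend on the point of `W_i`) and of moving log canonical
  arrangements: there are a variety `X'` with a generically finite map `X' ⇢ X` (ramified anywhere)
  and a rational map of `X'` to `V_i × P^{r_1} × ... × P^{r_c}`, `r_j ≥ 1`, which is dominant on the
  fibres of `X'` over `W_i`, and whose fibres (over `W_i`) are, up to finite maps, the fibres of
  `X' ⇢ W_{i+1}`; `a (p) ≥ 0` is the log discrepancy of an orbifold divisor at the places `p` of `V_i`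
  in the image of the relevant prime divisors, and the Kodaira dimension of `(V_i, a)` is at least
  `h_i`; in each `P^{r_j}` there are any hyperplanes `A j k = 0`, in any position, which move with the
  point of a variety finite over `W_i`, with weights `w j k ≥ 0`, such that the arrangement is log
  canonical (the sum of the weights of hyperplanes with a common point is at most the codimension of
  their intersection) and `∑ k, w j k ≥ r_j + 1`. Let `Q` be a place of the function field of `X'` over
  a relevant prime divisor which dominates `W_i` but not `W_{i+1}`, with ramification index `ε`, let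
  `e j k` be the multiplicities of the hyperplanes at `Q`, and `R = ∑ (mx_j - ∑ w j k e j k)`, where
  `mx_j` is the greatest sum of `r_j + 1` of the `e j k` whose hyperplanes have no common point. Then
  `ε ≤ ν a (p) + R` if `Q` lies over the place `p` of `V_i`, with ramification index `ν`; and if `Q`
  dominates `V_i` then `ε ≤ R`, or `ε ≤ 1` if all `e j k` are zero. Suppose that `h_i` plus the sum of
  the `r_j` with `∑ k, w j k > r_j + 1` is `e_i`.
* (the fibres of `X` over `W_l`) there is a correspondence `X'` as above between `X` and a relative
  product `P^{r_1} × ... × P^{r_c}` over `W_l` (`c = 0` is allowed), with log canonical moving hyperplane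
  arrangements with weights in `[0, 1]` and `ε ≤ R` (`ε ≤ 1`, if all `e j k` are zero) at the relevant
  prime divisors which dominate `W_l`; and at the places over the prime divisors of the product
  `K_X + L` is at most the pull back of the log canonical divisor of the arrangement (`Cor`).

Then `∑ k, w j k ≥ r_j + 1` for all `j` (for the fibres over `W_l`), and

  `κ(L') = ν(L') = dim W_l + λ`

for all effective `ℚ`-divisors `L'` with `Supp L' = Supp L`, where `λ` is the sum of the `r_j` with
`∑ k, w j k > r_j + 1`.

Relation with the question: let `X` be a projective manifold with `K_X ~ 0` and `L'` a nef effective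
divisor on `X`, `L` a small multiple of `L'` with these properties. By the theorem `κ(L') = ν(L')`, so
`K_X + t L' ~ t L'` is nef and abundant, and it is a klt adjoint divisor for small `t > 0`; so `L'` is
semiample (Kawamata 1985). Neither `L'` nor the map to `W_0` is assumed to have any other property: the
maps are only rational.

Notation: `X` is given by the homogeneous coordinates `y` of its generic point, with values in the
function field `K`; prime divisors are places `P` of `K`, `P.ord` is the order along `P`. `E i` is the
function field of `W_i`. `iitakaDim` and `nuDim` are the literal definitions of the Iitaka and of the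
numerical dimension of a divisor by means of the dimensions of the spaces of sections of `m L` and of
`m L + A`. Definitions: `Pool/Agent/X180/OK/Defs` (`TorsionCanonical`, `SameSupport`, `iitakaDim`,
`nuDim`), `OJ/Defs` (`JointFibres`, `IsTower`), `OP/Defs`, `AbDefs`; `Independent`, `GeneralPosition`:
`Pool/Agent/Y172`.

Proof: the theorem is deduced from a theorem on pairs `(X, Δ)`, for `Δ = Γ = L`, where `Γ` is a divisor
along which there are no conditions if `K_X + Δ - Γ` is pseudo-effective: here it is trivial. The
forms of a step are products of the pull backs of the forms of `V_i`, of determinants of logarithmic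
derivatives of the linear forms, and of one joint Wronskian of the coordinates of `V_i` and of the
`P^{r_j}` (`Pool.Agent.X180.OJ.joint_est`). They are multiplied along adapted regular vector fields, and
with forms of the base (`Pool.Agent.X325.OB.small_pair`), and divided by the power of the canonical
form of `X` without zeros.
-/

set_option autoImplicit false

open FF Pool.Agent.W602.GT Pool.Agent.Y172 Pool.Agent.Y191
open Pool.Agent.X180.OP (Fibres Relevant big)
open Pool.Agent.X180.OJ (IsTower)
open Pool.Agent.X180.OK

namespace Pool.Agent.Results.MP_5ee2d0_ag.ComplementsOverSubvarieties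

/-- The function field of the image of the rational map with the coordinates `b j`. -/
noncomputable def ImageField {K : Type} [Field K] [Algebra ℂ K] {v : ℕ} (b : Fin (v + 1) → K) :
    IntermediateField ℂ K :=
  IntermediateField.adjoin ℂ {f : K | ∃ i j, b j ≠ 0 ∧ f = b i / b j}

/-- The `b j` are the coordinates of a rational map whose image has dimension `p` and is not
contained in one of the hyperplanes `ℓ i = 0`. -/
def IsMap {K : Type} [Field K] [Algebra ℂ K] {v q : ℕ} (ℓ : Fin q → Fin (v + 1) → ℂ)
    (b : Fin (v + 1) → K) (p : ℕ) : Prop :=
  (∀ i, ∑ j, algebraMap ℂ K (ℓ i j) * b j ≠ 0) ∧ (∃ j, b j ≠ 0) ∧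
    Algebra.trdeg ℂ (ImageField b) = p

/-- The multiplicities over the base, at the prime divisors `P ∈ S` of `X`: if the hyperplanes
`ℓ i = 0` have the multiplicities `μ i` at `P`, not all zero, then
`min (#{i | μ i ≠ 0}) γ ≤ ∑ i, (1 - wt i) μ i`, with strict inequality if the sum of the weights is
`p * γ` and the multiplicity of the distinguished hyperplane `k0` is positive. -/
def Multiplicities {K : Type} [Field K] [Algebra ℂ K] {v q : ℕ} (S : Set (Place ℂ K))
    (ℓ : Fin q → Fin (v + 1) → ℂ) (b : Fin (v + 1) → K) (wt : Fin q → ℚ)
    (p γ : ℕ) (k0 : Fin q) : Prop :=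
  ∀ P ∈ S, ∀ (a : ℤ) (μ : Fin q → ℕ), MOrd P (fun k j => algebraMap ℂ K (ℓ k j)) b a μ → μ ≠ 0 →
    ((min (Finset.univ.filter fun i => μ i ≠ 0).card γ : ℕ) : ℚ) ≤ ∑ i, (1 - wt i) * μ i ∧
    (((p * γ : ℕ) : ℚ) = ∑ i, wt i → μ k0 ≠ 0 →
      ((min (Finset.univ.filter fun i => μ i ≠ 0).card γ : ℕ) : ℚ) < ∑ i, (1 - wt i) * μ i)

/-- **Abundance.** Let `ℓ i = 0` be hyperplanes in `P^v` in general position which impose
independent conditions on the forms of degree `d ≥ 1`. Let `X` be a normal projective variety with
`K_X ~ 0`, `L` and `A` effective `ℚ`-divisors, `b` the coordinates of a rational map `X ⇢ P^v` whose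
image is the bottom `W_0`, of dimension `D 0`, not contained in a hyperplane `ℓ i = 0`, of a tower
`X ⇢ W_l ⇢ ... ⇢ W_0` of dominant rational maps whose steps are as in `JointFibres`, of dimensions and
log Kodaira dimensions `e i`. Let `wt i ≥ 0` be weights whose sum is at least `(D 0 + 1) * γ`, where
`γ = (v - D 0 + d).choose (v - D 0)`, such that the condition `Multiplicities` holds, and let the
fibres of `X` over `W_l` be as in `Fibres`; all this for the relevant prime divisors of `X`, which are
not in the support of `L`. Then `r j + 1 ≤ ∑ i, w j i` for all `j`, and the Iitaka dimension and the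
numerical dimension of `L'` are `dim W_l` plus the sum of the `r j` with `r j + 1 < ∑ i, w j i`, for all
effective `ℚ`-divisors `L'` with the same support as `L`. -/
theorem result {v q d : ℕ} (hd : 0 < d) (ℓ : Fin q → Fin (v + 1) → ℂ) (hI : Independent d ℓ)
    (hg : GeneralPosition ℓ) (hq : v + 1 ≤ q) (K : Type) [Field K] [Algebra ℂ K]
    (N l c : ℕ) (E : Fin (l + 1) → IntermediateField ℂ K) (D : Fin (l + 1) → ℕ) (e : Fin l → ℕ)
    (r s : Fin c → ℕ) (y : Fin (N + 1) → K) (L A : Place ℂ K → ℚ)
    (hy : NormalModel y) (hn : Algebra.trdeg ℂ K = (D (Fin.last l) + ∑ j, r j : ℕ))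
    (hK : TorsionCanonical y (D (Fin.last l) + ∑ j, r j) 1) (hL : Effective y L)
    (hA : Effective y A)
    (b : Fin (v + 1) → K) (hb : IsMap ℓ b (D 0)) (hE0 : E 0 = ImageField b)
    (wt : Fin q → ℚ) (hwt : ∀ i, 0 ≤ wt i)
    (hs : (((D 0 + 1) * (v - D 0 + d).choose (v - D 0) : ℕ) : ℚ) ≤ ∑ i, wt i) (k0 : Fin q)
    (hm : Multiplicities (Relevant y (D (Fin.last l) + ∑ j, r j) L L A) ℓ b wt (D 0 + 1)
      ((v - D 0 + d).choose (v - D 0)) k0)
    (hT : IsTower (Relevant y (D (Fin.last l) + ∑ j, r j) L L A) (fun _ => 0) E D e e)
    (w : ∀ j, Fin (s j) → ℚ)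
    (hF : Fibres y (D (Fin.last l) + ∑ j, r j) L
      (Relevant y (D (Fin.last l) + ∑ j, r j) L L A) (E (Fin.last l)) r s w) :
    (∀ j, (r j + 1 : ℚ) ≤ ∑ i, w j i) ∧ ∀ L', SameSupport y L L' →
      iitakaDim y L' = ((D (Fin.last l) + big r s w : ℕ) : WithBot ℕ) ∧
      ∀ A', Effective y A' → Integral y A' →
        nuDim y L' A' = ((D (Fin.last l) + big r s w : ℕ) : EReal) := by
  have hn' : D (Fin.last l) + ∑ j, r j = D 0 + (∑ i, e i + ∑ j, r j) := by
    rw [Pool.Agent.X180.TP.dims fun i => (hT.2 i).2.1, add_assoc]
  have hE0' : E 0 = RF ℂ b := hE0
  have hK' : Algebra.trdeg ℂ K = (D 0 + (∑ i, e i + ∑ j, r j) : ℕ) := by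
    rw [← hn', hn]
  have hz : (fun P => (((0 : Place ℂ K → ℚ) P : ℚ) : ℝ)) = fun _ : Place ℂ K => (0 : ℝ) :=
    funext fun P => Rat.cast_zero
  refine of_abundance hn hK (tow_triv hy hn hK hL hA hT hF fun lam' h0 => ?_)
  rw [hE0'] at h0
  have h1 := Pool.Agent.X325.OB.small_pair (Δ := 0) hd hI hg hq hy hb.1 hb.2.1
    (by rw [← hE0']; exact hT.1 0) hK' (fun P hP => hP.1) (fun P _ => le_rfl) hwt hs
    (fun P hP a μ ho hμ => by
      have h2 := (hm P hP a μ (Pool.Agent.X325.OB.mord_ord ho) hμ).1
      rw [Pi.zero_apply, mul_zero, zero_add]
      exact h2)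
    (h0.mono fun P _ => by
      rw [hz]
      unfold Pool.Agent.X180.Iso.hor
      split_ifs <;> exact le_rfl)
  have h3 := h1.2 k0 fun heq P hP a μ ho hμ => by
    have h2 := (hm P hP a μ (Pool.Agent.X325.OB.mord_ord ho) (fun h => hμ (by rw [h]; rfl))).2 heq hμ
    rw [Pi.zero_apply, mul_zero, zero_add]
    exact h2
  rw [hz] at h3
  exact h3

end Pool.Agent.Results.MP_5ee2d0_ag.ComplementsOverSubvarieties
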