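import Pool.Agent.X324.SA.Eff
import Pool.Agent.X324.SA.Crit

set_option autoImplicit false

/-!
# Nef divisors on quotients of products: a criterion for semiampleness

A projective manifold `X` with `K_X ~ 0` is of the form `X = (A × F) / G`, where `A = V / Λ` is an
abelian variety, `F = ∏ F i` a simply connected product of irreducible holomorphic symplectic and of
strict Calabi–Yau manifolds, and `G` a finite group which acts on both factors. The theorem is a
criterion for a nef line bundle `L` on `X`, without a condition on `H^1(X, O_X)`. The components `β i`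
of `L` in `Cl(F i)` are nef, and the following conditions are equivalent: `L` is semiample; all `β i`
are semiample and some power `L^m`, `m > 0`, has a section which is not identically zero; all `β i` are
semiample and some power of `L` is trivial on the subtori of `A` which are given by the kernel of the
Chern form. If `H^1(X, O_X) = 0`, the last condition holds, and so `L` is semiample (not only
numerically) if and only if all `β i` are semiample. So the problem is reduced to the simply connected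
manifolds `F i`, although `X` may have an abelian variety of positive dimension as a factor of its
covering.

The theorem holds for all quotients `X = (A × F) / G`; `X` may be singular, the action of `G` may have
fixed points, the elements of `G` may permute the factors `F i`, and there is no condition on the
canonical class. Here `F` is any product of normal projective `ℚ`-factorial varieties `F i` such that
`Cl(F)` is free and the direct sum of the `Cl(F i)`; it is given by its Cox ring, which need not be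
finitely generated.

The proof: a nef class is a pair of a semidefinite hermitian form `H` on `V` and a nef class `β` of `F`.
On the subtori given by the kernel of `H` the sections have constant absolute value for a suitable
metric, and so a nonzero section of `L^m` makes `L^m` trivial there. A power of `L` is the tensor
product of a line bundle `L'` on `V / Γ` with Chern form a multiple of `H` and of a sheaf with trivial
factor of automorphy; if `L` is torsion on these subtori, then `L'` is so too, and a power of `L'` is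
base point free. Its sections are multiplied with the norms of sections of multiples of `β`.

`Cl`, `Semistable`, `SemiampleF`, `Grp`, `base`, `IsQuotient`, `Sheaf`, `IsPowSection`, `IsSemiample`,
`IsChern`, `IsClass`, `N1`, `semiample`, `coneHull` and `nefCone` are defined in
`Pool.Agent.X324.CF.Defs`; `IsCoxRing`, `IsProduct`, `part`, `real` and `nefF` in
`Pool.Agent.X324.CG.Defs`; `HOneZero` in `Pool.Agent.TH735.AQ.Defs`.
-/

namespace Pool.Agent.Results.MP_5ee2d0_ag.EffectiveNef

open Pool.Agent.X324.CF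
open Pool.Agent.X324.CG (IsCoxRing IsProduct part real nefF)
open Pool.Agent.TH735.AQ (HOneZero)

/-- The space `N^1(X)`. (In the absolute case the linear subspace `E` of `V` of the general
definitions is `V` itself, embedded by the identity map.) -/
abbrev NS {V R : Type*} [NormedAddCommGroup V] [NormedSpace ℂ V] [CommRing R] [Algebra ℂ R] {ρ : ℕ}
    (𝒜 : Cl ρ → Submodule ℂ R) (Γ : Grp V R) : Type _ :=
  N1 𝒜 Γ (LinearMap.id : V →ₗ[ℂ] V)

/-- The nef cone of `X`. -/
def nef {V R : Type*} [NormedAddCommGroup V] [NormedSpace ℂ V] [CommRing R] [Algebra ℂ R] {ρ : ℕ}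
    (𝒜 : Cl ρ → Submodule ℂ R) (Γ : Grp V R) (u : Cl ρ) : Set (NS 𝒜 Γ) :=
  nefCone 𝒜 Γ LinearMap.id u

/-- The sheaf `𝓛` is nef: its class in `N^1(X)` is in the nef cone. -/
def IsNef {V R : Type*} [NormedAddCommGroup V] [NormedSpace ℂ V] [CommRing R] [Algebra ℂ R]
    {ρ : ℕ} {𝒜 : Cl ρ → Submodule ℂ R} {Γ : Grp V R} (u : Cl ρ) (𝓛 : Sheaf 𝒜 Γ) : Prop :=
  ∃ x : NS 𝒜 Γ, IsClass LinearMap.id 𝓛 (val x) ∧ x ∈ nef 𝒜 Γ u

/-- The statement of the problem for the factor `F i`: nef classes are semiample. -/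
def NefIsSemiample {R κ : Type*} [CommRing R] [Algebra ℂ R] {ρ : ℕ}
    (𝒜 : Cl ρ → Submodule ℂ R) (u : Cl ρ) (c : Fin ρ → κ) (i : κ) : Prop :=
  ∀ β : Cl ρ, (∀ k, c k ≠ i → β k = 0) → real β ∈ nefF 𝒜 u c i → SemiampleF 𝒜 u β

/-- Some power `𝓛^m`, `m > 0`, has a global section which is not identically zero. -/
def IsQEffective {V R : Type*} [NormedAddCommGroup V] [NormedSpace ℂ V] [CommRing R] [Algebra ℂ R]
    {ρ : ℕ} {𝒜 : Cl ρ → Submodule ℂ R} {Γ : Grp V R} (𝓛 : Sheaf 𝒜 Γ) : Prop :=
  ∃ m : ℕ, 0 < m ∧ ∃ f, 𝓛.IsPowSection m f ∧ ∃ v, f v ≠ 0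

/-- Let `K` be the kernel of `H` and `Λ` the lattice of the translations of `V` which are in `Γ` (with
trivial action on `F`), so that `A = V / Λ`. Some power `𝓛^m`, `m > 0`, is trivial on the subtorus
`K / (Λ ∩ K)` of `A` (more exactly: of `A × {p}`): there is a nowhere vanishing holomorphic function
`g` (the values on `K` are what matters) which is a section of `𝓛^m` over this torus. -/
def IsTorsionOnKernel {V R : Type*} [NormedAddCommGroup V] [NormedSpace ℂ V] [CommRing R]
    [Algebra ℂ R] {ρ : ℕ} {𝒜 : Cl ρ → Submodule ℂ R} {Γ : Grp V R} (𝓛 : Sheaf 𝒜 Γ)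
    (H : V → V → ℂ) : Prop :=
  ∃ m : ℕ, 0 < m ∧ ∃ g : V → ℂ, Differentiable ℂ g ∧ (∀ v, g v ≠ 0) ∧
    ∀ (b : V) (hb : (AffineEquiv.constVAdd ℂ V b, (1 : R ≃ₐ[ℂ] R)) ∈ Γ), (∀ w, H b w = 0) →
      ∀ v, (∀ w, H v w = 0) → g (b + v) = 𝓛.e ⟨_, hb⟩ v ^ m * g v

/-- Let `F` be a product of varieties `F i`, let `X = (V × F) / Γ` be a quotient, and let `𝓛` be a nef
sheaf on `X` with components `part c i 𝓛.deg` in `Cl(F i)`. These components are nef. The sheaf is
semiample if and only if the components are semiample and some positive power of `𝓛` has a section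
which is not identically zero, and if and only if the components are semiample and some positive power
of `𝓛` is trivial on the subtorus of `A` given by the kernel of the Chern form. If
`H^1(X, O_X) = 0`, then `𝓛` is semiample if and only if its components are; in particular it is
semiample if nef classes on the varieties `F i` are semiample. -/
theorem result {V R κ : Type*} [NormedAddCommGroup V] [NormedSpace ℂ V] [FiniteDimensional ℂ V]
    [CommRing R] [IsDomain R] [Algebra ℂ R] [DecidableEq κ] [Fintype κ] {ρ : ℕ}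
    (𝒜 : Cl ρ → Submodule ℂ R) [GradedAlgebra 𝒜] (u : Cl ρ) (hF : IsCoxRing 𝒜 u)
    (c : Fin ρ → κ) (hprod : IsProduct 𝒜 c)
    (Γ : Grp V R) (hX : IsQuotient 𝒜 u Γ) (𝓛 : Sheaf 𝒜 Γ) (h𝓛 : IsNef u 𝓛) :
    (∀ i, real (part c i 𝓛.deg) ∈ nefF 𝒜 u c i) ∧
    (𝓛.IsSemiample u ↔ (∀ i, SemiampleF 𝒜 u (part c i 𝓛.deg)) ∧ IsQEffective 𝓛) ∧
    (𝓛.IsSemiample u ↔ (∀ i, SemiampleF 𝒜 u (part c i 𝓛.deg)) ∧
      ∀ H, 𝓛.IsChern H → IsTorsionOnKernel 𝓛 H) ∧
    (HOneZero (base Γ) → ((𝓛.IsSemiample u ↔ ∀ i, SemiampleF 𝒜 u (part c i 𝓛.deg)) ∧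
      ((∀ i, NefIsSemiample 𝒜 u c i) → 𝓛.IsSemiample u))) := by
  obtain ⟨x, ⟨⟨H, hH, h1⟩, h2⟩, hx⟩ := h𝓛
  have h2' : (val x).2 = real 𝓛.deg := funext h2
  obtain ⟨hform, hdeg⟩ := Pool.Agent.X324.SA.nef_sub hF hX hx
  have hn : Pool.Agent.W594.SYZ2.IsNefForm H := by
    intro v
    have h3 := hform v
    rw [h1] at h3
    exact h3
  have hcomp : ∀ i, real (part c i 𝓛.deg) ∈ nefF 𝒜 u c i := by
    intro i
    have h3 := Pool.Agent.X324.SA.part_nef (u := u) hprod i hdeg
    have h5 : Pool.Agent.X324.CG.partR c i (real 𝓛.deg) = real (part c i 𝓛.deg) :=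
      Pool.Agent.X324.CG.partR_rv c i 𝓛.deg
    rwa [h2', h5] at h3
  have hparts : 𝓛.IsSemiample u → ∀ i, SemiampleF 𝒜 u (part c i 𝓛.deg) := fun h i =>
    hprod.semi i (Pool.Agent.X324.SA.deg_semi h)
  have hsum : (∀ i, SemiampleF 𝒜 u (part c i 𝓛.deg)) → SemiampleF 𝒜 u 𝓛.deg :=
    Pool.Agent.X324.SA.semi_of_parts
  -- semiample sheaves have sections
  have h12 : 𝓛.IsSemiample u → IsQEffective 𝓛 := by
    rintro ⟨m, hm, h⟩
    obtain ⟨p, hp⟩ := hF.point
    obtain ⟨f, hf, hf0⟩ := h 0 p hp
    exact ⟨m, hm, f, hf, 0, fun h0 => hf0 (by rw [h0, map_zero])⟩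
  -- sections make the sheaf torsion on the kernel
  have h23 : IsQEffective 𝓛 → ∀ H, 𝓛.IsChern H → IsTorsionOnKernel 𝓛 H := by
    rintro ⟨m, hm, f, hf, v₀, h0⟩ H' ⟨hherm, F, hFd, hFe⟩
    have hpot := Pool.Agent.X324.SA.pot_resT hFd hFe
    obtain ⟨k, hk, g, hg, hg0, hge⟩ := Pool.Agent.X324.SA.torsion_of_chi' hherm hpot hm
      fun b hb hbK => Pool.Agent.X324.SA.chi_of_pow hX hherm hpot hf h0 hb hbK
    exact ⟨k, hk, g, hg, hg0, fun b hb hbK v hv =>
      hge b (Pool.Agent.X324.CF.mem_latt_trans.2 hb) hbK v hv⟩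
  -- torsion on the kernel makes a nef sheaf semiample
  have h31 : (∀ i, SemiampleF 𝒜 u (part c i 𝓛.deg)) →
      (∀ H, 𝓛.IsChern H → IsTorsionOnKernel 𝓛 H) → 𝓛.IsSemiample u := by
    intro hs' h
    obtain ⟨k, hk, g, hg, hg0, hge⟩ := h H hH
    obtain ⟨hherm, F, hFd, hFe⟩ := hH
    have hpot := Pool.Agent.X324.SA.pot_resT hFd hFe
    have htor : Pool.Agent.TH735.AQ.TorsionOnKernel 𝓛.resT H :=
      ⟨k, hk, g, hg, hg0, fun b hb hbK v hv =>
        hge b (Pool.Agent.X324.CF.mem_latt_trans.1 hb) hbK v hv⟩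
    obtain ⟨n, Δ, π, hfib, hind⟩ := Pool.Agent.TH735.AQ.semiample_of_torsion
      (Pool.Agent.X324.CF.trans_torus hX) ⟨hherm, F, hFd, hpot.2⟩ hn htor
    obtain ⟨N, hN, hgg⟩ := Pool.Agent.X324.SA.gg_of_induces hfib hind
    obtain ⟨s, hs, hs0⟩ := hgg 0
    exact Pool.Agent.X324.SA.semi_of_chi hX hherm hFd hFe hn (hsum hs') hN fun t ht htK =>
      Pool.Agent.X324.SA.chi_of_section (Pool.Agent.X324.CF.trans_torus hX) hherm hpot hs hs0 ht htK
  refine ⟨hcomp, ⟨fun h => ⟨hparts h, h12 h⟩, fun h => h31 h.1 (h23 h.2)⟩,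
    ⟨fun h => ⟨hparts h, h23 (h12 h)⟩, fun h => h31 h.1 h.2⟩, fun h01 => ⟨⟨hparts, fun h => ?_⟩,
      fun h => ?_⟩⟩
  · exact Pool.Agent.X324.SA.semiample_of_nef hX h01 hH hn (hsum h)
  · exact Pool.Agent.X324.SA.semiample_of_nef hX h01 hH hn
      (hsum fun i => h i _ (Pool.Agent.X324.CG.part_BL i _) (hcomp i))

end Pool.Agent.Results.MP_5ee2d0_ag.EffectiveNef
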