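import Pool.Agent.X180.OK.Pair

/-!
# Abundance for effective divisors on varieties with trivial canonical class

Let `X` be a normal projective variety with `K_X ~ 0` (for instance a projective manifold) and `L` an
effective divisor on `X`. A prime divisor of `X` is *relevant* if it is not in the support of `L`, and
not in the base locus of all `m (L + η A)`, for small `η ≥ 0` (`A` a given effective divisor; so the
divisors in the diminished base locus of `L` may be neglected; if `L` is nef and `A` is ample, all
prime divisors of `X ∖ Supp L` are relevant). Let

  `X ⇢ W_l ⇢ ... ⇢ W_1 ⇢ W_0`, `l ≥ 0`,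

be dominant rational maps. Suppose:

* (the base) for some `m > 0` there are `m`-canonical forms on `W_0` with `dim W_0` algebraically
  independent ratios, with poles of order at most `m (1 - 1 / ν)` at the place `p` of the function
  field of `W_0`, if a relevant prime divisor of `X` lies over `p`, with multiplicity `ν`; there is no
  condition at the places below components of `L` only. (So `W_0`, with the multiplicities of the
  fibres of `X ∖ Supp L`, is of log general type.)
* (the steps of the tower) for each `i < l` the fibres of `W_{i+1}` over `W_i`, of dimension `e_i`,
  *with the multiplicities of the fibres of `X ∖ Supp L` over `W_{i+1}`*, correspond to the product of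
  one orbifold `V_i` (which does not depend on the point of `W_i`) and of moving log canonical
  arrangements: there are a variety `X'` with a generically finite map `X' ⇢ X` (ramified anywhere)
  and a rational map of `X'` to `V_i × P^{r_1} × ... × P^{r_c}`, `r_j ≥ 1`, which is dominant on the
  fibres of `X'` over `W_i`, and whose fibres (over `W_i`) are, up to finite maps, the fibres of
  `X' ⇢ W_{i+1}`; `a (p) ≥ 0` is the log discrepancy of an orbifold divisor at the places `p` of `V_i`
  in the image of the relevant prime divisors, and the Kodaira dimension of `(V_i, a)` is at least
  `h_i`; in each `P^{r_j}` there are any hyperplanes `A j k = 0`, in any position, which move with the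
  point of a variety finite over `W_i`, with weights `w j k ≥ 0`, such that the arrangement is log
  canonical (the sum of the weights of hyperplanes with a common point is at most the codimension of
  their intersection) and `∑ k, w j k ≥ r_j + 1`. Let `Q` be a place of the function field of `X'` over
  a relevant prime divisor which dominates `W_i` but not `W_{i+1}`, with ramification index `ε`, let
  `e j k` be the multiplicities of the hyperplanes at `Q`, and `R = ∑ (mx_j - ∑ w j k e j k)`, where
  `mx_j` is the greatest sum of `r_j + 1` of the `e j k` whose hyperplanes have no common point. Then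
  `ε ≤ ν a (p) + R` if `Q` lies over the place `p` of `V_i`, with ramification index `ν`; and if `Q`
  dominates `V_i` then `ε ≤ R`, or `ε ≤ 1` if all `e j k` are zero. Suppose that `h_i` plus the sum of
  the `r_j` with `∑ k, w j k > r_j + 1` is `e_i`.
* (the fibres of `X` over `W_l`) there is a correspondence `X'` as above between `X` and a relative
  product `P^{r_1} × ... × P^{r_c}` over `W_l` (`c = 0` is allowed), with log canonical moving hyperplane
  arrangements with weights in `[0, 1]` and `ε ≤ R` (`ε ≤ 1`, if all `e j k` are zero) at the relevant
  prime divisors which dominate `W_l`; and at the places over the prime divisors of the product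
  `K_X + L` is at most the pull back of the log canonical divisor of the arrangement (`Cor`).

Then `∑ k, w j k ≥ r_j + 1` for all `j` (for the fibres over `W_l`), and

  `κ(L') = ν(L') = dim W_l + λ`

for all effective `ℚ`-divisors `L'` with `Supp L' = Supp L`, where `λ` is the sum of the `r_j` with
`∑ k, w j k > r_j + 1`.

Relation with the question: let `X` be a projective manifold with `K_X ~ 0` and `L'` a nef effective
divisor on `X`, `L` a small multiple of `L'` with these properties. By the theorem `κ(L') = ν(L')`, so
`K_X + t L' ~ t L'` is nef and abundant, and it is a klt adjoint divisor for small `t > 0`; so `L'` is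
semiample (Kawamata 1985). Neither `L'` nor the map to `W_0` is assumed to have any other property: the
maps are only rational.

Notation: `X` is given by the homogeneous coordinates `y` of its generic point, with values in the
function field `K`; prime divisors are places `P` of `K`, `P.ord` is the order along `P`. `E i` is the
function field of `W_i`. `iitakaDim` and `nuDim` are the literal definitions of the Iitaka and of the
numerical dimension of a divisor by means of the dimensions of the spaces of sections of `m L` and of
`m L + A`. Definitions: `Pool/Agent/X180/OK/Defs` (`TorsionCanonical`, `SameSupport`, `iitakaDim`,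
`nuDim`), `OJ/Defs` (`JointFibres`, `IsTower`), `OD/BaseDefs` (`BaseKodGe`), `OP/Defs`, `AbDefs`.

Proof: the theorem is deduced from a theorem on pairs `(X, Δ)`, for `Δ = Γ = L`, where `Γ` is a divisor
along which there are no conditions if `K_X + Δ - Γ` is pseudo-effective: here it is trivial. The
forms of a step are products of the pull backs of the forms of `V_i`, of determinants of logarithmic
derivatives of the linear forms, and of one joint Wronskian of the coordinates of `V_i` and of the
`P^{r_j}` (`Pool.Agent.X180.OJ.joint_est`). They are multiplied along adapted regular vector fields, and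
divided by the power of the canonical form of `X` without zeros.
-/

set_option autoImplicit false

open FF Pool.Agent.W602.GT Pool.Agent.Y172 Pool.Agent.Y191
open Pool.Agent.X180.OP (Fibres Relevant big)
open Pool.Agent.X180.OJ (IsTower)
open Pool.Agent.X180.OD (BaseKodGe)
open Pool.Agent.X180.OK

namespace Pool.Agent.Results.MP_5ee2d0_ag.JointTowersOfComplements

/-- **Abundance.** Let `X` be a normal projective variety with `K_X ~ 0`, `L` and `A` effective
`ℚ`-divisors, and `X ⇢ W_l ⇢ ... ⇢ W_0` a tower of dominant rational maps such that the orbifold base
of `X` over `W_0` is of general type and the steps are as in `JointFibres`, of dimensions and log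
Kodaira dimensions `e i`, and let the fibres of `X` over `W_l` be as in `Fibres`, all this for the
relevant prime divisors of `X`, which are not in the support of `L`. Then `r j + 1 ≤ ∑ i, w j i` for all
`j`, and the Iitaka dimension and the numerical dimension of `L'` are `dim W_l` plus the sum of the
`r j` with `r j + 1 < ∑ i, w j i`, for all effective `ℚ`-divisors `L'` with the same support as `L`. -/
theorem result (K : Type) [Field K] [Algebra ℂ K] (N l c : ℕ)
    (E : Fin (l + 1) → IntermediateField ℂ K) (D : Fin (l + 1) → ℕ) (e : Fin l → ℕ)
    (r s : Fin c → ℕ) (y : Fin (N + 1) → K) (L A : Place ℂ K → ℚ)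
    (hy : NormalModel y) (hn : Algebra.trdeg ℂ K = (D (Fin.last l) + ∑ j, r j : ℕ))
    (hK : TorsionCanonical y (D (Fin.last l) + ∑ j, r j) 1) (hL : Effective y L)
    (hA : Effective y A) [Algebra.EssFiniteType ℂ (E 0)]
    (hY : BaseKodGe (Relevant y (D (Fin.last l) + ∑ j, r j) L L A) (E 0) (D 0) (D 0))
    (hT : IsTower (Relevant y (D (Fin.last l) + ∑ j, r j) L L A) (fun _ => 0) E D e e)
    (w : ∀ j, Fin (s j) → ℚ)
    (hF : Fibres y (D (Fin.last l) + ∑ j, r j) L
      (Relevant y (D (Fin.last l) + ∑ j, r j) L L A) (E (Fin.last l)) r s w) :
    (∀ j, (r j + 1 : ℚ) ≤ ∑ i, w j i) ∧ ∀ L', SameSupport y L L' →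
      iitakaDim y L' = ((D (Fin.last l) + big r s w : ℕ) : WithBot ℕ) ∧
      ∀ A', Effective y A' → Integral y A' →
        nuDim y L' A' = ((D (Fin.last l) + big r s w : ℕ) : EReal) := by
  have hn' : D (Fin.last l) + ∑ j, r j = D 0 + (∑ i, e i + ∑ j, r j) := by
    rw [Pool.Agent.X180.TP.dims fun i => (hT.2 i).2.1, add_assoc]
  have hK' : Algebra.trdeg ℂ K = (D 0 + (∑ i, e i + ∑ j, r j) : ℕ) := by
    rw [← hn', hn]
  exact of_abundance hn hK (tow_triv hy hn hK hL hA hT hF fun lam' h0 =>
    Pool.Agent.X180.OD.orb_base hK' (hT.1 0) hY h0)

end Pool.Agent.Results.MP_5ee2d0_ag.JointTowersOfComplements
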