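import Pool.Agent.X302.SA.Bpf

set_option autoImplicit false

/-!
# Nef divisors on torus quotients with `H^1(X, O_X) = 0`

Let `X = V / Γ` be the quotient of a complex torus of any dimension (for instance of an abelian
variety) by any finite group; this includes all projective manifolds with `K_X ~ 0` and
`H^1(X, O_X) = 0` which have an abelian variety as an etale cover. The theorem says: every nef line
bundle on `X` has a globally generated power if and only if `H^1(X, O_X) = 0`. If
`H^1(X, O_X) ≠ 0` then already some line bundle with Chern form zero is not semiample.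

Global generation is meant literally: for every point of `X` there is a section, a theta function on
`V`, which does not vanish there.

`latt`, `IsTorusQuotient`, `LineBundle`, `LineBundle.pow`, `LineBundle.IsSection` are defined in
`Pool.Agent.W594.SYZ.Defs2`; `IsHermitian`, `IsChernForm` and `IsNefForm` in
`Pool.Agent.W594.SYZ.TQDefs`; `HOneZero` and `IsFlat` in `Pool.Agent.TH735.AQ.Defs`;
`IsGloballyGenerated` in `Pool.Agent.X302.SA.Bpf`.
-/

namespace Pool.Agent.Results.MP_5ee2d0_ag.TorusQuotients

open Pool.Agent.W594.SYZ2 Pool.Agent.TH735.AQ Pool.Agent.X302.SA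

/-- Let `X = V / Γ` be a torus quotient. If `H^1(X, O_X) = 0` then a line bundle on `X` with Chern form
`H` is nef if and only if some power of it is globally generated. If `H^1(X, O_X) ≠ 0` then there is a
flat line bundle on `X` none of whose powers is globally generated. -/
theorem result {V : Type*} [NormedAddCommGroup V] [NormedSpace ℂ V] [FiniteDimensional ℂ V]
    (Γ : Subgroup (V ≃ᵃ[ℂ] V)) (hΓ : IsTorusQuotient Γ) :
    (HOneZero Γ → ∀ (L : LineBundle Γ) (H : V → V → ℂ), IsChernForm L H →
      (IsNefForm H ↔ ∃ N : ℕ, 1 ≤ N ∧ IsGloballyGenerated (L.pow N))) ∧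
    (¬ HOneZero Γ → ∃ P : LineBundle Γ, IsFlat P ∧
      ∀ N : ℕ, 1 ≤ N → ¬ IsGloballyGenerated (P.pow N)) := by
  refine ⟨fun h01 L H hc => ⟨gg_of_nef hΓ h01 hc, ?_⟩, exists_not_gg hΓ⟩
  rintro ⟨N, hN, h⟩
  exact nef_of_gg hΓ hc hN h

end Pool.Agent.Results.MP_5ee2d0_ag.TorusQuotients
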